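import Mathlib

set_option autoImplicit false

/-!
# A non-amenable group with a faithful action which is `n`-Liouville for every `n`

This answers question Q1 of MP_2579e4_al in the negative. The group is a countable group `G` of
permutations of `ℕ` which contains all permutations with finite support and is not amenable. There
is one non-degenerate probability measure on `G` which is good for all `n`: it is a mixture of point
masses and of the uniform measures on the groups of permutations of initial segments `[0, N k)`,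
where the `k`-th uniform measure has weight about `1 / k²`. For the oscillation `D r` of a
bounded harmonic function on the `n`-subsets of `[0, N r)` this gives
`D r ≤ (1 - 1 / (2 r + 2)) D (r + 1) + M / 2 ^ r`, hence `D r = 0`.
-/

namespace Pool.Agent.Results.MP_2579e4_al.LiouvilleNonamenable

open scoped Pointwise


/-- `μ` is (given by the weights of) a probability measure on `G`. -/
def IsProb {G : Type} (μ : G → ℝ) : Prop := (∀ g, 0 ≤ μ g) ∧ HasSum μ 1

/-- `μ` is non-degenerate: its support generates `G` as a semigroup. -/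
def NonDegenerate {G : Type} [Group G] (μ : G → ℝ) : Prop :=
  Subsemigroup.closure {g | μ g ≠ 0} = ⊤

/-- The transition probabilities `p_μ(y, z) = ∑_{g y = z} μ(g)` of the random walk on the `G`-set
`Y`. -/
noncomputable def transition {G Y : Type} [Group G] [MulAction G Y] (μ : G → ℝ) (y z : Y) : ℝ :=
  ∑' g : {g : G // g • y = z}, μ g

/-- `f` is `μ`-harmonic: `f(y) = ∑_z f(z) p_μ(y, z)` for all `y`. -/
def Harmonic {G Y : Type} [Group G] [MulAction G Y] (μ : G → ℝ) (f : Y → ℝ) : Prop :=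
  ∀ y, f y = ∑' z, f z * transition μ y z

/-- The action of `G` on `Y` is `μ`-Liouville: every bounded `μ`-harmonic function is constant. -/
def MuLiouville {G : Type} (Y : Type) [Group G] [MulAction G Y] (μ : G → ℝ) : Prop :=
  ∀ f : Y → ℝ, (∃ C, ∀ y, |f y| ≤ C) → Harmonic μ f → ∀ y z, f y = f z

/-- `G` is amenable: there is a left invariant finitely additive probability measure defined on all
subsets of `G`. -/
def Amenable (G : Type) [Group G] : Prop :=
  ∃ m : Set G → ℝ, (∀ A, 0 ≤ m A) ∧ m Set.univ = 1 ∧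
    (∀ A B, Disjoint A B → m (A ∪ B) = m A + m B) ∧
    ∀ (g : G) (A : Set G), m ((fun x => g * x) '' A) = m A

/-- Sums along fibres. -/
lemma push {I J : Type} (w : I → ℝ) (hw : Summable w) (hw0 : ∀ i, 0 ≤ w i) (v : I → J)
    (F : J → ℝ) (C : ℝ) (hF : ∀ j, |F j| ≤ C) :
    HasSum (fun j => F j * ∑' i : {i // v i = j}, w i) (∑' i, w i * F (v i)) := by
  have hs : Summable (fun i => w i * F (v i)) := by
    refine Summable.of_norm_bounded (g := fun i => w i * C) (hw.mul_right C) (fun i => ?_)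
    rw [Real.norm_eq_abs, abs_mul, abs_of_nonneg (hw0 i)]
    exact mul_le_mul_of_nonneg_left (hF _) (hw0 i)
  have h1 := (Equiv.sigmaFiberEquiv v).hasSum_iff.mpr hs.hasSum
  refine h1.sigma (fun j => ?_)
  have h2 : Summable (fun i : {i // v i = j} => w i) := hw.subtype _
  have h3 := h2.hasSum.mul_left (F j)
  have h4 : (fun i : {i // v i = j} => w i.1 * F (v i.1)) = fun i => F j * w i.1 := by
    funext i
    rw [i.2, mul_comm]
  exact h4 ▸ h3

instance finPts (m : ℕ) : Fintype {x : ℕ // x < m} := Fintype.ofEquiv (Fin m) Fin.equivSubtype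

/-- the permutation of `ℕ` given by a permutation of `[0, m)` -/
def ext (m : ℕ) : Equiv.Perm {x : ℕ // x < m} →* Equiv.Perm ℕ := Equiv.Perm.ofSubtype

lemma ext_apply_lt (m : ℕ) (σ : Equiv.Perm {x : ℕ // x < m}) {x : ℕ} (hx : x < m) :
    ext m σ x = σ ⟨x, hx⟩ := Equiv.Perm.ofSubtype_apply_of_mem σ hx

lemma ext_lt_iff (m : ℕ) (σ : Equiv.Perm {x : ℕ // x < m}) (x : ℕ) :
    ext m σ x < m ↔ x < m := by
  by_cases hx : x < m
  · rw [ext_apply_lt m σ hx]
    exact ⟨fun _ => hx, fun _ => (σ ⟨x, hx⟩).2⟩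
  · rw [ext, Equiv.Perm.ofSubtype_apply_of_not_mem σ hx]

lemma ext_lt_of_le {m r : ℕ} (h : m ≤ r) (σ : Equiv.Perm {x : ℕ // x < m}) {x : ℕ} (hx : x < r) :
    ext m σ x < r := by
  by_cases hx' : x < m
  · exact ((ext_lt_iff m σ x).2 hx').trans_le h
  · rw [ext, Equiv.Perm.ofSubtype_apply_of_not_mem σ hx']
    exact hx

/-- transitivity of the permutations of `[0, m)` on the `n`-subsets of `[0, m)` -/
lemma exists_ext_smul {m n : ℕ} (E E' : Set.powersetCard ℕ n)
    (h : ∀ x ∈ (E : Finset ℕ), x < m) (h' : ∀ x ∈ (E' : Finset ℕ), x < m) :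
    ∃ τ : Equiv.Perm {x : ℕ // x < m}, (E' : Finset ℕ) = (E : Finset ℕ).image (ext m τ) := by
  classical
  have key : ∀ E : Set.powersetCard ℕ n, (∀ x ∈ (E : Finset ℕ), x < m) →
      ((E : Finset ℕ).subtype (· < m)).card = n := by
    intro E h
    rw [Finset.card_subtype, Finset.filter_true_of_mem h]
    exact E.2
  have htr := (Set.powersetCard.isPretransitive (α := {x : ℕ // x < m}) (n := n)).exists_smul_eq
    ⟨_, key E h⟩ ⟨_, key E' h'⟩
  obtain ⟨τ, hτ⟩ := htr
  refine ⟨τ, ?_⟩
  have h1 : ((E : Finset ℕ).subtype (· < m)).image τ = (E' : Finset ℕ).subtype (· < m) :=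
    congrArg Subtype.val hτ
  ext y
  constructor
  · intro hy
    have h2 : (⟨y, h' y hy⟩ : {x : ℕ // x < m}) ∈ ((E : Finset ℕ).subtype (· < m)).image τ := by
      rw [h1, Finset.mem_subtype]; exact hy
    obtain ⟨x, hx, hxy⟩ := Finset.mem_image.1 h2
    rw [Finset.mem_subtype] at hx
    refine Finset.mem_image.2 ⟨x.1, hx, ?_⟩
    rw [ext_apply_lt m τ x.2]
    exact congrArg Subtype.val hxy
  · intro hy
    obtain ⟨x, hx, rfl⟩ := Finset.mem_image.1 hy
    have h2 : τ ⟨x, h x hx⟩ ∈ ((E : Finset ℕ).subtype (· < m)).image τ :=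
      Finset.mem_image_of_mem _ (by rw [Finset.mem_subtype]; exact hx)
    rw [h1, Finset.mem_subtype] at h2
    rw [ext_apply_lt m τ (h x hx)]
    exact h2

/-- weights -/
noncomputable def q (r : ℕ) : ℝ := 1 / ((r : ℝ) + 1)

lemma q_pos (r : ℕ) : 0 < q r := by unfold q; positivity

lemma q_le (r : ℕ) : q r ≤ 1 := by
  unfold q
  rw [div_le_one (by positivity)]
  have : (0 : ℝ) ≤ r := Nat.cast_nonneg r
  linarith

lemma q_anti (r : ℕ) : q (r + 1) ≤ q r := by
  unfold q
  push_cast
  gcongr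
  linarith

lemma hasSum_p : HasSum (fun k => q k - q (k + 1)) 1 := by
  rw [hasSum_iff_tendsto_nat_of_nonneg (fun k => sub_nonneg.2 (q_anti k))]
  have h1 : ∀ n, ∑ k ∈ Finset.range n, (q k - q (k + 1)) = 1 - q n := by
    intro n
    rw [Finset.sum_range_sub']
    simp [q]
  simp_rw [h1]
  have h2 : Filter.Tendsto q Filter.atTop (nhds 0) := tendsto_one_div_add_atTop_nhds_zero_nat
  simpa using h2.const_sub 1

lemma prod_tendsto (r : ℕ) :
    Filter.Tendsto (fun R => ∏ j ∈ Finset.Ico r R, (1 - q j / 2)) Filter.atTop (nhds 0) := by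
  have hbound : ∀ R, r ≤ R → ∏ j ∈ Finset.Ico r R, (1 - q j / 2) ≤
      Real.sqrt (((r : ℝ) + 1) / ((R : ℝ) + 1)) := by
    intro R hR
    induction R, hR using Nat.le_induction with
    | base => simp [div_self (show ((r : ℝ) + 1) ≠ 0 by positivity)]
    | succ R hR ih =>
      rw [Finset.prod_Ico_succ_top hR]
      have h0 : 0 ≤ 1 - q R / 2 := by have := q_le R; linarith
      refine (mul_le_mul_of_nonneg_right ih h0).trans ?_
      rw [← Real.sqrt_sq h0, ← Real.sqrt_mul (by positivity)]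
      apply Real.sqrt_le_sqrt
      rw [Nat.cast_add, Nat.cast_one]
      unfold q
      have hR0 : (0 : ℝ) ≤ R := Nat.cast_nonneg R
      have hr0 : (0 : ℝ) ≤ r := Nat.cast_nonneg r
      rw [div_mul_eq_mul_div, div_le_div_iff₀ (by positivity) (by positivity)]
      have : (1 - 1 / ((R : ℝ) + 1) / 2) ^ 2 * (R + 1 + 1) ≤ R + 1 := by
        have h3 : (1 - 1 / ((R : ℝ) + 1) / 2) = (2 * R + 1) / (2 * (R + 1)) := by
          field_simp; ring
        rw [h3, div_pow, div_mul_eq_mul_div, div_le_iff₀ (by positivity)]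
        nlinarith
      nlinarith
  refine squeeze_zero' (Filter.Eventually.of_forall fun R => ?_)
    (Filter.eventually_atTop.2 ⟨r, hbound⟩) ?_
  · refine Finset.prod_nonneg fun j _ => ?_
    have := q_le j; linarith
  · have h1 : Filter.Tendsto (fun R : ℕ => ((r : ℝ) + 1) / ((R : ℝ) + 1)) Filter.atTop (nhds 0) := by
      have := tendsto_one_div_add_atTop_nhds_zero_nat (𝕜 := ℝ)
      simpa [div_eq_mul_inv] using this.const_mul ((r : ℝ) + 1)
    have h2 := (Real.continuous_sqrt.tendsto 0).comp h1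
    rw [Real.sqrt_zero] at h2
    exact h2

section main

/-- the recursion for the lengths of the initial segments -/
lemma exists_N (e : ℕ → ℕ → ℕ) : ∃ N : ℕ → ℕ, (∀ k, k ≤ N k) ∧ Monotone N ∧
    ∀ k r, k ≤ r → ∀ x < N r, e k x < N (r + 1) := by
  let step : ℕ → ℕ → ℕ := fun r m =>
    m + 1 + ∑ k ∈ Finset.range (r + 1), ∑ x ∈ Finset.range m, (e k x + 1)
  let N : ℕ → ℕ := fun k => Nat.rec 0 step k
  have hN : ∀ r, N (r + 1) = N r + 1 +
    ∑ k ∈ Finset.range (r + 1), ∑ x ∈ Finset.range (N r), (e k x + 1) := fun k => rfl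
  refine ⟨N, ?_, ?_, ?_⟩
  · intro k
    induction k with
    | zero => exact Nat.zero_le _
    | succ k ih => rw [hN]; omega
  · exact monotone_nat_of_le_succ fun k => by rw [hN]; omega
  · intro k r hk x hx
    have h1 : e k x + 1 ≤ ∑ x ∈ Finset.range (N r), (e k x + 1) :=
      Finset.single_le_sum (f := fun x => e k x + 1) (fun _ _ => Nat.zero_le _)
        (Finset.mem_range.2 hx)
    have h2 : ∑ x ∈ Finset.range (N r), (e k x + 1) ≤
        ∑ k ∈ Finset.range (r + 1), ∑ x ∈ Finset.range (N r), (e k x + 1) :=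
      Finset.single_le_sum (f := fun k => ∑ x ∈ Finset.range (N r), (e k x + 1))
        (fun _ _ => Nat.zero_le _) (Finset.mem_range.2 (by omega))
    rw [hN]
    omega

/-- the index set of the mixture -/
abbrev Idx (N : ℕ → ℕ) : Type := Σ k : ℕ, Option (Equiv.Perm {x : ℕ // x < N k})

/-- the weights of the mixture -/
noncomputable def wt (N : ℕ → ℕ) : Idx N → ℝ
  | ⟨k, none⟩ => (1 / 2) ^ (k + 2)
  | ⟨k, some _⟩ => (q k - q (k + 1)) / 2 / (Fintype.card (Equiv.Perm {x : ℕ // x < N k}) : ℝ)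

lemma wt_nonneg (N : ℕ → ℕ) (i : Idx N) : 0 ≤ wt N i := by
  rcases i with ⟨k, _ | σ⟩
  · unfold wt; positivity
  · unfold wt
    have := q_anti k
    exact div_nonneg (div_nonneg (by linarith) (by norm_num)) (Nat.cast_nonneg _)

lemma card_pos' (m : ℕ) : (0 : ℝ) < (Fintype.card (Equiv.Perm {x : ℕ // x < m}) : ℝ) := by
  exact_mod_cast Fintype.card_pos

lemma sum_block (N : ℕ → ℕ) (k : ℕ) (F : Option (Equiv.Perm {x : ℕ // x < N k}) → ℝ) :
    ∑' o, wt N ⟨k, o⟩ * F o = (1 / 2) ^ (k + 2) * F none + (q k - q (k + 1)) / 2 *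
      ((∑ σ, F (some σ)) / (Fintype.card (Equiv.Perm {x : ℕ // x < N k}) : ℝ)) := by
  rw [tsum_fintype, Fintype.sum_option]
  congr 1
  unfold wt
  rw [← Finset.mul_sum]
  have := card_pos' (N k)
  field_simp

lemma hasSum_geom : HasSum (fun k : ℕ => ((1 : ℝ) / 2) ^ (k + 2)) (1 / 2) := by
  have h := (hasSum_geometric_two).mul_left ((1 : ℝ) / 4)
  have h2 : (fun k : ℕ => (1 : ℝ) / 4 * (1 / 2) ^ k) = fun k : ℕ => ((1 : ℝ) / 2) ^ (k + 2) := by
    funext k; rw [pow_add]; ring
  rw [h2] at h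
  norm_num at h ⊢
  exact h

lemma summable_wt (N : ℕ → ℕ) : Summable (wt N) := by
  rw [summable_sigma_of_nonneg (wt_nonneg N)]
  refine ⟨fun k => Summable.of_finite, ?_⟩
  have h : (fun k => ∑' o, wt N ⟨k, o⟩) = fun k : ℕ => ((1 : ℝ) / 2) ^ (k + 2) +
      (q k - q (k + 1)) / 2 := by
    funext k
    have := sum_block N k (fun _ => 1)
    simp only [mul_one, Finset.sum_const, Finset.card_univ, nsmul_eq_mul] at this
    rw [this, div_self (card_pos' (N k)).ne', mul_one]
  rw [h]
  exact hasSum_geom.summable.add (hasSum_p.summable.div_const 2)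

lemma tsum_wt (N : ℕ → ℕ) (F : Idx N → ℝ) (C : ℝ) (hF : ∀ i, |F i| ≤ C) :
    Summable (fun k => (1 / 2) ^ (k + 2) * F ⟨k, none⟩ + (q k - q (k + 1)) / 2 *
      ((∑ σ, F ⟨k, some σ⟩) / (Fintype.card (Equiv.Perm {x : ℕ // x < N k}) : ℝ))) ∧
    ∑' i, wt N i * F i = ∑' k, ((1 / 2) ^ (k + 2) * F ⟨k, none⟩ + (q k - q (k + 1)) / 2 *
      ((∑ σ, F ⟨k, some σ⟩) / (Fintype.card (Equiv.Perm {x : ℕ // x < N k}) : ℝ))) := by
  have hs : Summable (fun i => wt N i * F i) := by
    refine Summable.of_norm_bounded (g := fun i => wt N i * C) ((summable_wt N).mul_right C)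
      (fun i => ?_)
    rw [Real.norm_eq_abs, abs_mul, abs_of_nonneg (wt_nonneg N i)]
    exact mul_le_mul_of_nonneg_left (hF _) (wt_nonneg N i)
  have h1 : ∀ k, ∑' o, wt N ⟨k, o⟩ * F ⟨k, o⟩ = _ := fun k => sum_block N k (fun o => F ⟨k, o⟩)
  have h2 := hs.sigma
  simp_rw [h1] at h2
  refine ⟨h2, ?_⟩
  rw [hs.tsum_sigma]
  simp_rw [h1]

lemma hasSum_wt (N : ℕ → ℕ) : HasSum (wt N) 1 := by
  have h := tsum_wt N (fun _ => 1) 1 (by simp)
  have h1 : ∑' i, wt N i = 1 := by
    have h2 := h.2
    simp only [mul_one, Finset.sum_const, Finset.card_univ, nsmul_eq_mul] at h2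
    rw [h2]
    have h3 : (fun k : ℕ => ((1 : ℝ) / 2) ^ (k + 2) + (q k - q (k + 1)) / 2 *
        ((Fintype.card (Equiv.Perm {x : ℕ // x < N k}) : ℝ) /
          (Fintype.card (Equiv.Perm {x : ℕ // x < N k}) : ℝ))) =
        fun k : ℕ => ((1 : ℝ) / 2) ^ (k + 2) + (q k - q (k + 1)) / 2 := by
      funext k
      rw [div_self (card_pos' (N k)).ne', mul_one]
    rw [h3]
    have h4 := (hasSum_geom.add (hasSum_p.div_const 2)).tsum_eq
    rw [h4]; norm_num
  rw [← h1]
  exact (summable_wt N).hasSum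

/-- bound on a series with a good start and a geometric tail -/
lemma series_bound (a : ℕ → ℝ) (ha : Summable a) (r : ℕ) (c M : ℝ) (hc : 0 ≤ c)
    (h1 : ∀ k < r, |a k| ≤ ((1 / 2) ^ (k + 2) + (q k - q (k + 1)) / 2) * c)
    (h2 : ∀ k, r ≤ k → |a k| ≤ (1 / 2) ^ (k + 1) * M) :
    |∑' k, a k| ≤ (1 - q r / 2) * c + (1 / 2) ^ r * M := by
  rw [← ha.sum_add_tsum_nat_add r]
  refine (abs_add_le _ _).trans (add_le_add ?_ ?_)
  · refine (Finset.abs_sum_le_sum_abs _ _).trans
      ((Finset.sum_le_sum fun k hk => h1 k (Finset.mem_range.1 hk)).trans ?_)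
    rw [← Finset.sum_mul, Finset.sum_add_distrib, ← Finset.sum_div, Finset.sum_range_sub']
    refine mul_le_mul_of_nonneg_right ?_ hc
    have h3 : ∑ k ∈ Finset.range r, ((1 : ℝ) / 2) ^ (k + 2) ≤ 1 / 2 :=
      sum_le_hasSum _ (fun k _ => by positivity) hasSum_geom
    have h4 : q 0 = 1 := by simp [q]
    rw [h4]
    linarith
  · have h3 : HasSum (fun k : ℕ => ((1 : ℝ) / 2) ^ (k + r + 1) * M) ((1 / 2) ^ r * M) := by
      have h := (hasSum_geometric_two).mul_left (((1 : ℝ) / 2) ^ (r + 1) * M)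
      have h5 : (fun k : ℕ => ((1 : ℝ) / 2) ^ (r + 1) * M * (1 / 2) ^ k) =
          fun k : ℕ => ((1 : ℝ) / 2) ^ (k + r + 1) * M := by
        funext k; rw [show k + r + 1 = (r + 1) + k by ring, pow_add]; ring
      rw [h5] at h
      have h6 : ((1 : ℝ) / 2) ^ (r + 1) * M * 2 = (1 / 2) ^ r * M := by rw [pow_succ]; ring
      rwa [h6] at h
    have h6 : Summable (fun k => a (k + r)) := (summable_nat_add_iff r).2 ha
    have h7 := tsum_of_norm_bounded h3 (f := fun k => a (k + r)) (fun k => by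
      rw [Real.norm_eq_abs]
      exact h2 (k + r) (by omega))
    rwa [Real.norm_eq_abs] at h7

/-- the recursion `D r ≤ (1 - q r / 2) D (r + 1) + M / 2 ^ r` for nonnegative constants forces
`D = 0` -/
lemma osc_zero (P : ℕ → ℝ → Prop) (M : ℝ) (hM : 0 ≤ M) (h0 : ∀ r, P r (2 * M))
    (hrec : ∀ r c, 0 ≤ c → P (r + 1) c → P r ((1 - q r / 2) * c + (1 / 2) ^ r * M))
    (hmono : ∀ r s c, r ≤ s → P s c → P r c)
    (hclosed : ∀ r c, (∀ ε > 0, P r (c + ε)) → P r c)
    (hle : ∀ r c c', c ≤ c' → P r c → P r c') (r : ℕ) : P r 0 := by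
  -- iterate
  have hiter : ∀ d r, P r ((∏ j ∈ Finset.Ico r (r + d), (1 - q j / 2)) * (2 * M) +
      ∑ j ∈ Finset.Ico r (r + d), (1 / 2) ^ j * M) := by
    intro d
    induction d with
    | zero => intro r; simpa using h0 r
    | succ d ih =>
      intro r
      have hpos : 0 ≤ (∏ j ∈ Finset.Ico (r + 1) (r + 1 + d), (1 - q j / 2)) * (2 * M) +
          ∑ j ∈ Finset.Ico (r + 1) (r + 1 + d), (1 / 2) ^ j * M := by
        refine add_nonneg (mul_nonneg (Finset.prod_nonneg fun j _ => ?_) (by linarith))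
          (Finset.sum_nonneg fun j _ => by positivity)
        have := q_le j; linarith
      refine hle r _ _ ?_ (hrec r _ hpos (ih (r + 1)))
      rw [Finset.prod_eq_prod_Ico_succ_bot (by omega : r < r + (d + 1)),
        Finset.sum_eq_sum_Ico_succ_bot (by omega : r < r + (d + 1)),
        show r + (d + 1) = r + 1 + d by ring]
      have h1 : 1 - q r / 2 ≤ 1 := by have := q_pos r; linarith
      have h2 : 0 ≤ ∑ j ∈ Finset.Ico (r + 1) (r + 1 + d), (1 / 2) ^ j * M :=
        Finset.sum_nonneg fun j _ => by positivity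
      nlinarith
  have hgeom : ∀ d r, ∑ j ∈ Finset.Ico r (r + d), ((1 : ℝ) / 2) ^ j * M ≤ 2 * (1 / 2) ^ r * M := by
    intro d r
    rw [← Finset.sum_mul]
    refine mul_le_mul_of_nonneg_right ?_ hM
    have h : HasSum (fun k : ℕ => ((1 : ℝ) / 2) ^ (r + k)) (2 * (1 / 2) ^ r) := by
      have h := (hasSum_geometric_two).mul_left (((1 : ℝ) / 2) ^ r)
      have h5 : (fun k : ℕ => ((1 : ℝ) / 2) ^ r * (1 / 2) ^ k) =
          fun k : ℕ => ((1 : ℝ) / 2) ^ (r + k) := by
        funext k; rw [pow_add]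
      rw [h5] at h
      rwa [mul_comm] at h
    rw [Finset.sum_Ico_eq_sum_range, Nat.add_sub_cancel_left]
    exact sum_le_hasSum _ (fun k _ => by positivity) h
  have hstep : ∀ r, P r (2 * (1 / 2) ^ r * M) := by
    intro r
    refine hclosed r _ fun ε hε => ?_
    have h1 := (prod_tendsto r).mul_const (2 * M)
    rw [zero_mul] at h1
    obtain ⟨R, hR⟩ := Filter.eventually_atTop.1 (h1.eventually (gt_mem_nhds hε))
    have h2 := hR (max r R) (le_max_right _ _)
    obtain ⟨d, hd⟩ := Nat.exists_eq_add_of_le (le_max_left r R)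
    rw [hd] at h2
    refine hle r _ _ ?_ (hiter d r)
    have := hgeom d r
    linarith
  refine hclosed r _ fun ε hε => ?_
  have h1 : Filter.Tendsto (fun s : ℕ => 2 * ((1 : ℝ) / 2) ^ s * M) Filter.atTop (nhds 0) := by
    have := (tendsto_pow_atTop_nhds_zero_of_lt_one (r := (1 : ℝ) / 2) (by norm_num)
      (by norm_num)).const_mul 2 |>.mul_const M
    simpa using this
  obtain ⟨S, hS⟩ := Filter.eventually_atTop.1 (h1.eventually (gt_mem_nhds hε))
  refine hle r _ _ ?_ (hmono r (max r S) _ (le_max_left _ _) (hstep _))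
  have := hS (max r S) (le_max_right _ _)
  linarith

/-- The measure: it works for every countable group of permutations of `ℕ` which contains all the
permutations with finite support. -/
lemma exists_measure (G : Type) [Group G] [Countable G] [MulAction G ℕ]
    (hG : ∀ (m : ℕ) (σ : Equiv.Perm {x : ℕ // x < m}), ∃ g : G, ∀ x : ℕ, g • x = ext m σ x) :
    ∃ μ : G → ℝ, IsProb μ ∧ NonDegenerate μ ∧
      ∀ n, MuLiouville (Set.powersetCard ℕ n) μ := by
  obtain ⟨e, he⟩ := exists_surjective_nat G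
  obtain ⟨N, hN1, hN2, hN3⟩ := exists_N (fun k x => e k • x)
  choose u hu using hG
  let v : Idx N → G := fun i => match i with
    | ⟨k, none⟩ => e k
    | ⟨k, some σ⟩ => u (N k) σ
  have hv0 : ∀ k, v ⟨k, none⟩ = e k := fun _ => rfl
  have hv1 : ∀ k σ (x : ℕ), v ⟨k, some σ⟩ • x = ext (N k) σ x := fun k σ x => hu (N k) σ x
  have hmem : ∀ {n : ℕ} (g : G) (E : Set.powersetCard ℕ n) (x : ℕ),
      x ∈ ((g • E : Set.powersetCard ℕ n) : Finset ℕ) ↔ ∃ y ∈ (E : Finset ℕ), g • y = x := by
    intro n g E x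
    rw [Set.powersetCard.coe_smul]
    exact Finset.mem_smul_finset
  set μ : G → ℝ := fun g => ∑' i : {i // v i = g}, wt N i with hμ
  have hμ0 : ∀ g, 0 ≤ μ g := fun g => tsum_nonneg fun i => wt_nonneg N i
  have hμ1 : HasSum μ 1 := by
    have h := push (wt N) (summable_wt N) (wt_nonneg N) v (fun _ => 1) 1 (by simp)
    simp only [one_mul, mul_one] at h
    rwa [(hasSum_wt N).tsum_eq] at h
  refine ⟨μ, ⟨hμ0, hμ1⟩, ?_, ?_⟩
  · -- every element of `G` has positive weight
    have h : {g : G | μ g ≠ 0} = Set.univ := by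
      refine Set.eq_univ_of_forall fun g => ?_
      obtain ⟨k, rfl⟩ := he g
      have hs : Summable (fun i : {i // v i = e k} => wt N i) := (summable_wt N).subtype _
      have h1 : wt N ⟨k, none⟩ ≤ μ (e k) :=
        hs.le_tsum (⟨⟨k, none⟩, hv0 k⟩ : {i // v i = e k}) (fun j _ => wt_nonneg N j)
      have h2 : 0 < wt N ⟨k, none⟩ := by unfold wt; positivity
      exact (h2.trans_le h1).ne'
    unfold NonDegenerate
    rw [h, Subsemigroup.closure_univ]
  · intro n f hf hharm
    obtain ⟨M, hM⟩ := hf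
    obtain ⟨hM0⟩ : Nonempty (0 ≤ M) := by
      by_contra hcon
      have hempty : IsEmpty (Set.powersetCard ℕ n) := ⟨fun E => hcon ⟨(abs_nonneg _).trans (hM E)⟩⟩
      have : (Finset.range n).card = n := Finset.card_range n
      exact hempty.false ⟨Finset.range n, this⟩
    -- the harmonic identity
    have hid : ∀ E, f E = ∑' i, wt N i * f (v i • E) := by
      intro E
      have h1 := push μ hμ1.summable hμ0 (fun g => g • E) f M hM
      have h2 := push (wt N) (summable_wt N) (wt_nonneg N) v (fun g => f (g • E)) M (fun g => hM _)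
      have h3 : ∑' g, f (g • E) * μ g = ∑' i, wt N i * f (v i • E) := h2.tsum_eq
      rw [hharm E]
      unfold transition
      rw [h1.tsum_eq, ← h3]
      exact tsum_congr fun g => mul_comm _ _
    -- the oscillation
    let P : ℕ → ℝ → Prop := fun r c => ∀ E E' : Set.powersetCard ℕ n,
      (∀ x ∈ (E : Finset ℕ), x < N r) → (∀ x ∈ (E' : Finset ℕ), x < N r) → |f E - f E'| ≤ c
    have hP : ∀ r, P r 0 := by
      refine osc_zero P M hM0 ?_ ?_ ?_ ?_ ?_
      · intro r E E' _ _
        have h1 := hM E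
        have h2 := hM E'
        calc |f E - f E'| ≤ |f E| + |f E'| := abs_sub _ _
          _ ≤ 2 * M := by linarith
      · intro r c hc hrc E E' hE hE'
        obtain ⟨hs1, h1⟩ := tsum_wt N (fun i => f (v i • E)) M (fun i => hM _)
        obtain ⟨hs2, h2⟩ := tsum_wt N (fun i => f (v i • E')) M (fun i => hM _)
        rw [hid E, hid E', h1, h2, ← hs1.tsum_sub hs2]
        refine series_bound _ (hs1.sub hs2) r c M hc ?_ ?_
        · intro k hk
          have a1 : |f (v ⟨k, none⟩ • E) - f (v ⟨k, none⟩ • E')| ≤ c := by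
            refine hrc _ _ (fun x hx => ?_) (fun x hx => ?_)
            · obtain ⟨y, hy, rfl⟩ := (hmem _ _ _).1 hx
              exact hN3 k r hk.le y (hE y hy)
            · obtain ⟨y, hy, rfl⟩ := (hmem _ _ _).1 hx
              exact hN3 k r hk.le y (hE' y hy)
          have a2 : ∀ σ, |f (v ⟨k, some σ⟩ • E) - f (v ⟨k, some σ⟩ • E')| ≤ c := by
            intro σ
            have hlt : ∀ y < N r, v ⟨k, some σ⟩ • y < N (r + 1) := fun y hy => by
              rw [hv1]
              exact (ext_lt_of_le (hN2 hk.le) σ hy).trans_le (hN2 (Nat.le_succ r))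
            refine hrc _ _ (fun x hx => ?_) (fun x hx => ?_)
            · obtain ⟨y, hy, rfl⟩ := (hmem _ _ _).1 hx
              exact hlt y (hE y hy)
            · obtain ⟨y, hy, rfl⟩ := (hmem _ _ _).1 hx
              exact hlt y (hE' y hy)
          have a3 : |(∑ σ, f (v ⟨k, some σ⟩ • E)) /
              (Fintype.card (Equiv.Perm {x : ℕ // x < N k}) : ℝ) -
              (∑ σ, f (v ⟨k, some σ⟩ • E')) /
              (Fintype.card (Equiv.Perm {x : ℕ // x < N k}) : ℝ)| ≤ c := by
            rw [← sub_div, ← Finset.sum_sub_distrib, abs_div, abs_of_pos (card_pos' (N k)),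
              div_le_iff₀ (card_pos' (N k))]
            refine (Finset.abs_sum_le_sum_abs _ _).trans
              ((Finset.sum_le_sum fun σ _ => a2 σ).trans ?_)
            rw [Finset.sum_const, Finset.card_univ, nsmul_eq_mul, mul_comm]
          have a4 : 0 ≤ (q k - q (k + 1)) / 2 := by have := q_anti k; linarith
          have a5 : (0 : ℝ) ≤ (1 / 2) ^ (k + 2) := by positivity
          calc _ = |(1 / 2) ^ (k + 2) * (f (v ⟨k, none⟩ • E) - f (v ⟨k, none⟩ • E')) +
                (q k - q (k + 1)) / 2 * ((∑ σ, f (v ⟨k, some σ⟩ • E)) /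
                (Fintype.card (Equiv.Perm {x : ℕ // x < N k}) : ℝ) -
                (∑ σ, f (v ⟨k, some σ⟩ • E')) /
                (Fintype.card (Equiv.Perm {x : ℕ // x < N k}) : ℝ))| := by
                congr 1; ring
            _ ≤ (1 / 2) ^ (k + 2) * c + (q k - q (k + 1)) / 2 * c := by
                refine (abs_add_le _ _).trans (add_le_add ?_ ?_)
                · rw [abs_mul, abs_of_nonneg a5]
                  exact mul_le_mul_of_nonneg_left a1 a5
                · rw [abs_mul, abs_of_nonneg a4]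
                  exact mul_le_mul_of_nonneg_left a3 a4
            _ = _ := by ring
        · intro k hk
          have a2 : ∑ σ, f (v ⟨k, some σ⟩ • E') = ∑ σ, f (v ⟨k, some σ⟩ • E) := by
            obtain ⟨τ, hτ⟩ := exists_ext_smul (m := N k) E E'
              (fun x hx => (hE x hx).trans_le (hN2 hk)) (fun x hx => (hE' x hx).trans_le (hN2 hk))
            rw [← Equiv.sum_comp (Equiv.mulRight τ) (fun σ => f (v ⟨k, some σ⟩ • E))]
            refine Finset.sum_congr rfl fun σ _ => ?_
            congr 1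
            apply Subtype.ext
            ext y
            rw [hmem, hmem, hτ]
            simp only [Finset.mem_image, Equiv.coe_mulRight, hv1]
            constructor
            · rintro ⟨z, ⟨x, hx, rfl⟩, rfl⟩
              refine ⟨x, hx, ?_⟩
              rw [map_mul]; rfl
            · rintro ⟨x, hx, rfl⟩
              refine ⟨ext (N k) τ x, ⟨x, hx, rfl⟩, ?_⟩
              rw [map_mul]; rfl
          rw [a2, add_sub_add_right_eq_sub, ← mul_sub, abs_mul, abs_of_nonneg (by positivity)]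
          have a3 : |f (v ⟨k, none⟩ • E) - f (v ⟨k, none⟩ • E')| ≤ 2 * M := by
            have h3 := hM (v ⟨k, none⟩ • E)
            have h4 := hM (v ⟨k, none⟩ • E')
            calc _ ≤ |f (v ⟨k, none⟩ • E)| + |f (v ⟨k, none⟩ • E')| := abs_sub _ _
              _ ≤ 2 * M := by linarith
          calc (1 / 2 : ℝ) ^ (k + 2) * |f (v ⟨k, none⟩ • E) - f (v ⟨k, none⟩ • E')|
              ≤ (1 / 2) ^ (k + 2) * (2 * M) := mul_le_mul_of_nonneg_left a3 (by positivity)
            _ = (1 / 2) ^ (k + 1) * M := by rw [pow_succ (1 / 2 : ℝ) (k + 1)]; ring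
      · intro r s c hrs h E E' hE hE'
        exact h E E' (fun x hx => (hE x hx).trans_le (hN2 hrs))
          (fun x hx => (hE' x hx).trans_le (hN2 hrs))
      · intro r c h E E' hE hE'
        exact le_of_forall_pos_le_add fun ε hε => h ε hε E E' hE hE'
      · intro r c c' hcc' h E E' hE hE'
        exact (h E E' hE hE').trans hcc'
    intro E E'
    obtain ⟨r, hr⟩ : ∃ r, (∀ x ∈ (E : Finset ℕ), x < N r) ∧ ∀ x ∈ (E' : Finset ℕ), x < N r := by
      refine ⟨((E : Finset ℕ).sup id ⊔ (E' : Finset ℕ).sup id) + 1, fun x hx => ?_, fun x hx => ?_⟩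
      · have h1 : x ≤ (E : Finset ℕ).sup id := Finset.le_sup (f := id) hx
        refine lt_of_lt_of_le ?_ (hN1 _)
        exact Nat.lt_succ_of_le (h1.trans le_sup_left)
      · have h1 : x ≤ (E' : Finset ℕ).sup id := Finset.le_sup (f := id) hx
        refine lt_of_lt_of_le ?_ (hN1 _)
        exact Nat.lt_succ_of_le (h1.trans le_sup_right)
    have h := hP r E E' hr.1 hr.2
    have h2 := abs_nonneg (f E - f E')
    have h3 : |f E - f E'| = 0 := le_antisymm h h2
    exact sub_eq_zero.1 (abs_eq_zero.1 h3)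

/-- a permutation of `ℕ` which maps `{p}` onto `{q}` -/
lemma exists_perm (p q : ℕ → Prop) (h1 : {x | p x}.Infinite) (h2 : {x | ¬ p x}.Infinite)
    (h3 : {x | q x}.Infinite) (h4 : {x | ¬ q x}.Infinite) :
    ∃ a : Equiv.Perm ℕ, ∀ x, p x ↔ q (a x) := by
  classical
  have : Infinite {x // p x} := h1.to_subtype
  have : Infinite {x // ¬ p x} := h2.to_subtype
  have : Infinite {x // q x} := h3.to_subtype
  have : Infinite {x // ¬ q x} := h4.to_subtype
  obtain ⟨e⟩ : Nonempty ({x // p x} ≃ {x // q x}) := nonempty_equiv_of_countable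
  obtain ⟨f⟩ : Nonempty ({x // ¬ p x} ≃ {x // ¬ q x}) := nonempty_equiv_of_countable
  refine ⟨Equiv.subtypeCongr e f, fun x => ?_⟩
  by_cases hx : p x
  · refine iff_of_true hx ?_
    have h : Equiv.subtypeCongr e f x = e ⟨x, hx⟩ := by
      simp [Equiv.subtypeCongr, Equiv.sumCompl_symm_apply_of_pos hx]
    rw [h]
    exact (e ⟨x, hx⟩).2
  · refine iff_of_false hx ?_
    have h : Equiv.subtypeCongr e f x = f ⟨x, hx⟩ := by
      simp [Equiv.subtypeCongr, Equiv.sumCompl_symm_apply_of_neg hx]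
    rw [h]
    exact (f ⟨x, hx⟩).2

lemma infinite_mod (r : ℕ) (_hr : r < 4) : {x : ℕ | x % 4 = r}.Infinite := by
  refine Set.infinite_of_injective_forall_mem (f := fun n : ℕ => 4 * n + r) ?_ ?_
  · intro a b h
    simp only at h
    omega
  · intro n
    change (4 * n + r) % 4 = r
    omega

lemma infinite_not_mod (r : ℕ) (hr : r < 4) : {x : ℕ | ¬ x % 4 = r}.Infinite := by
  refine (infinite_mod ((r + 1) % 4) (by omega)).mono ?_
  intro x hx
  have hx' : x % 4 = (r + 1) % 4 := hx
  change ¬ x % 4 = r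
  omega

/-- A group which acts on `ℕ` with two elements `a`, `c` moving residue classes mod 4 as in the
free group is not amenable. -/
lemma not_amenable (G : Type) [Group G] [MulAction G ℕ] (a c : G)
    (ha : ∀ x : ℕ, ¬ x % 4 = 1 ↔ (a • x) % 4 = 0) (hc : ∀ x : ℕ, ¬ x % 4 = 3 ↔ (c • x) % 4 = 2) :
    ¬ Amenable G := by
  rintro ⟨m, h0, h1, hadd, hinv⟩
  let T : Set ℕ → Set G := fun S => {g : G | g • (0 : ℕ) ∈ S}
  have hT : ∀ (g : G) (S S' : Set ℕ), (∀ x, x ∈ S ↔ g • x ∈ S') → m (T S') = m (T S) := by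
    intro g S S' h
    rw [← hinv g (T S)]
    congr 1
    ext h'
    constructor
    · intro hh
      refine ⟨g⁻¹ * h', ?_, by group⟩
      change (g⁻¹ * h') • (0 : ℕ) ∈ S
      rw [h, mul_smul, smul_inv_smul]
      exact hh
    · rintro ⟨k, hk, rfl⟩
      change (g * k) • (0 : ℕ) ∈ S'
      rw [mul_smul, ← h]
      exact hk
  have hT' : ∀ S S' : Set ℕ, Disjoint S S' → m (T (S ∪ S')) = m (T S) + m (T S') := by
    intro S S' hd
    rw [← hadd]
    · rfl
    · rw [Set.disjoint_left] at hd ⊢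
      exact fun g hg hg' => hd hg hg'
  have huniv : m (T Set.univ) = 1 := by
    rw [← h1]; rfl
  have hcompl : ∀ r : ℕ, m (T {x | ¬ x % 4 = r}) = 1 - m (T {x | x % 4 = r}) := by
    intro r
    have h := hT' {x | x % 4 = r} {x | ¬ x % 4 = r} (by
      rw [Set.disjoint_left]; exact fun x hx hx' => hx' hx)
    have h2 : {x : ℕ | x % 4 = r} ∪ {x | ¬ x % 4 = r} = Set.univ := by
      ext x; simp [em]
    rw [h2, huniv] at h
    linarith
  have e1 := hT a {x | ¬ x % 4 = 1} {x | x % 4 = 0} ha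
  have e2 := hT c {x | ¬ x % 4 = 3} {x | x % 4 = 2} hc
  rw [hcompl] at e1 e2
  have e3 := hT' {x | x % 4 = 0} {x | x % 4 = 1} (by
    rw [Set.disjoint_left]; intro x hx hx'; simp only [Set.mem_ofPred_eq] at hx hx'; omega)
  have e4 := hT' {x | x % 4 = 2} {x | x % 4 = 3} (by
    rw [Set.disjoint_left]; intro x hx hx'; simp only [Set.mem_ofPred_eq] at hx hx'; omega)
  have e5 := hT' ({x | x % 4 = 0} ∪ {x | x % 4 = 1}) ({x | x % 4 = 2} ∪ {x | x % 4 = 3}) (by
    rw [Set.disjoint_left]; intro x hx hx'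
    simp only [Set.mem_ofPred_eq, Set.mem_union] at hx hx'; omega)
  have h2 : ({x : ℕ | x % 4 = 0} ∪ {x | x % 4 = 1}) ∪ ({x | x % 4 = 2} ∪ {x | x % 4 = 3}) =
      Set.univ := by
    ext x; simp only [Set.mem_ofPred_eq, Set.mem_union, Set.mem_univ, iff_true]; omega
  rw [h2, huniv, e3, e4] at e5
  linarith

lemma countable_closure {G : Type} [Group G] {s : Set G} (hs : s.Countable) :
    Countable (Subgroup.closure s) := by
  have := hs.to_subtype
  rw [FreeGroup.closure_eq_range]
  exact (MonoidHom.rangeRestrict_surjective _).countable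

/-- **There is a countable non-amenable group `G` with a faithful action on a set `X` and a
non-degenerate probability measure `μ` on `G` such that for every `n` the induced action of `G` on
the set of `n`-element subsets of `X` is `μ`-Liouville.** -/
theorem result : ∃ (G : Type) (_ : Group G) (X : Type) (_ : DecidableEq X) (_ : MulAction G X),
    Countable G ∧ ¬ Amenable G ∧ FaithfulSMul G X ∧
    ∃ μ : G → ℝ, IsProb μ ∧ NonDegenerate μ ∧
      ∀ n : ℕ, MuLiouville (Set.powersetCard X n) μ := by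
  obtain ⟨a, ha⟩ := exists_perm (fun x => ¬ x % 4 = 1) (fun x => x % 4 = 0)
    (infinite_not_mod 1 (by norm_num)) (by simpa using infinite_mod 1 (by norm_num))
    (infinite_mod 0 (by norm_num)) (infinite_not_mod 0 (by norm_num))
  obtain ⟨c, hc⟩ := exists_perm (fun x => ¬ x % 4 = 3) (fun x => x % 4 = 2)
    (infinite_not_mod 3 (by norm_num)) (by simpa using infinite_mod 3 (by norm_num))
    (infinite_mod 2 (by norm_num)) (infinite_not_mod 2 (by norm_num))
  let S : Set (Equiv.Perm ℕ) := (⋃ m, Set.range (ext m)) ∪ {a, c}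
  have hS : S.Countable := by
    refine Set.Countable.union (Set.countable_iUnion fun m => Set.countable_range _) ?_
    exact (Set.toFinite _).countable
  let G : Subgroup (Equiv.Perm ℕ) := Subgroup.closure S
  have : Countable G := countable_closure hS
  refine ⟨G, inferInstance, ℕ, inferInstance, inferInstance, inferInstance, ?_, inferInstance, ?_⟩
  · exact not_amenable G ⟨a, Subgroup.subset_closure (Or.inr (by simp))⟩
      ⟨c, Subgroup.subset_closure (Or.inr (by simp))⟩ ha hc
  · refine exists_measure G fun m σ => ⟨⟨ext m σ, Subgroup.subset_closure (Or.inl ?_)⟩, ?_⟩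
    · exact Set.mem_iUnion.2 ⟨m, σ, rfl⟩
    · exact fun x => rfl

end main

end Pool.Agent.Results.MP_2579e4_al.LiouvilleNonamenable
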